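import Pool.Agent.R19.AH.Approx
import Pool.Agent.W69.MD.Iter

/-!
# Asymptotically Hadamard matrices of every order

For every `ε > 0` and every sufficiently large order `n` (no congruence condition) there is an
`n × n` matrix with entries `±1` all of whose singular values lie in the interval
`[√n - n ^ (1/4 + ε), √n + n ^ (1/4 + ε)]`; in particular its condition number tends to `1`.
A Hadamard matrix of order `n` is exactly a sign matrix all of whose singular values are `√n`.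

Proof.  By the `log*` theorem of the starting files there is a Hadamard matrix of order `n + r` for
some `r ≤ log n`.  Closing the loop along `r` rows and columns gives an exact multiple of an
orthogonal matrix of order `n` whose entries differ from `±1` by at most `4 r / √n`.  After dividing
by a number slightly larger than one its entries are means of independent signs, and the trace
method (closed walks of length `2 ^ (j + 2)`) shows that the noise has small operator norm.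
-/

namespace Pool.Agent.Results.MP_d8b1b3_co.ApproximatelyHadamard

open Finset Matrix Pool.Agent.R19.AH

/-- a Hadamard order in `[n, n + log n]` -/
theorem supply : ∃ n₀ : ℕ, ∀ n : ℕ, n₀ ≤ n → ∃ r : ℕ, (r : ℝ) ≤ Real.log n ∧
    Pool.Agent.H108R3.Had.HasHad (n + r) := by
  obtain ⟨C, hC, hhad⟩ := Pool.Agent.W851.Had.main_had
  obtain ⟨a₀, ha₀⟩ := Pool.Agent.W69.MD.exp_le_tow C 2 hC
  refine ⟨Pool.Agent.W851.Had.tow a₀ + 1, fun n hn => ?_⟩
  have hex : ∃ k, n ≤ Pool.Agent.W851.Had.tow k := ⟨n, (Pool.Agent.W69.MD.lt_tow n).le⟩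
  obtain ⟨k, hk1, hk2⟩ : ∃ k, n ≤ Pool.Agent.W851.Had.tow k ∧
      ∀ i < k, Pool.Agent.W851.Had.tow i < n :=
    ⟨Nat.find hex, Nat.find_spec hex, fun i hi => not_le.1 (Nat.find_min hex hi)⟩
  have hka : a₀ < k := by
    by_contra hcon
    push Not at hcon
    have := hk1.trans (Pool.Agent.W69.MD.tow_mono hcon)
    omega
  obtain ⟨a, ha⟩ : ∃ a, k = a + 1 := ⟨k - 1, by omega⟩
  have haa : a₀ ≤ a := by omega
  have h1 : (Pool.Agent.W851.Had.tow a : ℝ) ≤ n := by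
    exact_mod_cast (hk2 a (by omega)).le
  have h3 := ha₀ a haa
  obtain ⟨T, hT⟩ : ∃ T : ℕ, T = 2 ^ (C ^ (a + 2)) := ⟨_, rfl⟩
  have hT1 : 1 ≤ T := by rw [hT]; exact Nat.one_le_two_pow
  have hTlog : (T : ℝ) ≤ Real.log n := by
    have h4 : Real.exp (2 * 2 ^ (C ^ (a + 2))) ≤ n := h3.trans h1
    have h5 : (2 : ℝ) * 2 ^ (C ^ (a + 2)) ≤ Real.log n := by
      rw [← Real.log_exp (2 * 2 ^ (C ^ (a + 2)))]
      exact Real.log_le_log (Real.exp_pos _) h4
    have h6 : (T : ℝ) = 2 ^ (C ^ (a + 2)) := by rw [hT]; push_cast; ring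
    rw [h6]
    have : (0 : ℝ) ≤ 2 ^ (C ^ (a + 2)) := by positivity
    linarith
  obtain ⟨q, hq⟩ : ∃ q, q = (n + T - 1) / T := ⟨_, rfl⟩
  have hdm := Nat.div_add_mod (n + T - 1) T
  have hmod := Nat.mod_lt (n + T - 1) (show T > 0 by omega)
  rw [← hq] at hdm
  have hn1 : 1 ≤ n := by omega
  have hqn : q ≤ n := by
    rw [hq]
    apply Nat.div_le_of_le_mul
    have : n + T ≤ T * n + 1 := by nlinarith
    omega
  refine ⟨T * q - n, ?_, ?_⟩
  · have h7 : T * q - n ≤ T := by omega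
    have h8 : ((T * q - n : ℕ) : ℝ) ≤ T := by exact_mod_cast h7
    linarith
  · have h7 : n + (T * q - n) = T * q := by omega
    rw [h7, hT]
    exact hhad k q (C ^ (a + 2)) (hqn.trans hk1) (by rw [ha])

theorem norm_toLp {n : ℕ} (y : Fin n → ℝ) :
    ‖(WithLp.toLp 2 y : EuclideanSpace ℝ (Fin n))‖ = √(∑ i, y i ^ 2) := by
  rw [EuclideanSpace.norm_eq]
  congr 1
  refine Finset.sum_congr rfl fun i _ => ?_
  simp

theorem dot_eq {n : ℕ} (y : Fin n → ℝ) : y ⬝ᵥ y = ∑ i, y i ^ 2 := by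
  simp only [dotProduct, sq]

/-- For every `ε > 0` and all large `n` there is an `n × n` sign matrix `B` such that for all unit
vectors `x` the length of `B x` is within `n ^ (1/4 + ε)` of `√n`. -/
theorem result (ε : ℝ) (hε : 0 < ε) : ∃ n₀ : ℕ, ∀ n : ℕ, n₀ ≤ n →
    ∃ B : Matrix (Fin n) (Fin n) ℝ, (∀ i j, B i j = 1 ∨ B i j = -1) ∧
      ∀ x : Fin n → ℝ, ∑ i, x i ^ 2 = 1 →
        |√(∑ i, (B *ᵥ x) i ^ 2) - √n| ≤ (n : ℝ) ^ (1 / 4 + ε) := by
  obtain ⟨δ, hδ⟩ : ∃ δ, δ = min (ε / 2) (1 / 8) := ⟨_, rfl⟩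
  have hδ0 : 0 < δ := by rw [hδ]; positivity
  have hδ1 : δ ≤ ε / 2 := by rw [hδ]; exact min_le_left _ _
  have hδ2 : δ ≤ 1 / 8 := by rw [hδ]; exact min_le_right _ _
  obtain ⟨n₁, hn₁⟩ := supply
  obtain ⟨j, hj⟩ : ∃ j : ℕ, 2 / δ ≤ (2 : ℝ) ^ (j + 1) := by
    obtain ⟨j, hj⟩ := pow_unbounded_of_one_lt (2 / δ) (by norm_num : (1 : ℝ) < 2)
    exact ⟨j, hj.le.trans (pow_le_pow_right₀ (by norm_num) (by omega))⟩
  obtain ⟨K, hK⟩ : ∃ K : ℕ, K = 2 ^ (j + 1) := ⟨_, rfl⟩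
  have hK1 : 1 ≤ K := by rw [hK]; exact Nat.one_le_two_pow
  have hKδ : 2 ≤ δ * K := by
    have h1 : (K : ℝ) = 2 ^ (j + 1) := by rw [hK]; push_cast; ring
    rw [← h1, div_le_iff₀ hδ0] at hj
    linarith
  -- large `n`
  have hlarge : ∀ᶠ n : ℕ in Filter.atTop, 16 ≤ (n : ℝ) ^ δ ∧ Real.log n + 1 ≤ (n : ℝ) ^ δ ∧
      Cst K ≤ n := by
    have t1 : Filter.Tendsto (fun n : ℕ => (n : ℝ) ^ δ) Filter.atTop Filter.atTop :=
      (tendsto_rpow_atTop hδ0).comp tendsto_natCast_atTop_atTop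
    have t2 := t1.eventually_ge_atTop 16
    have t3 : ∀ᶠ n : ℕ in Filter.atTop, ‖Real.log n‖ ≤ (1 / 2) * ‖(n : ℝ) ^ δ‖ :=
      tendsto_natCast_atTop_atTop.eventually
        ((isLittleO_log_rpow_atTop hδ0).bound (by norm_num : (0 : ℝ) < 1 / 2))
    have t4 : ∀ᶠ n : ℕ in Filter.atTop, Cst K ≤ (n : ℝ) :=
      tendsto_natCast_atTop_atTop.eventually_ge_atTop _
    filter_upwards [t2, t3, t4] with n h2 h3 h4
    refine ⟨h2, ?_, h4⟩
    rw [Real.norm_eq_abs, Real.norm_eq_abs, abs_of_nonneg (by linarith : (0 : ℝ) ≤ (n : ℝ) ^ δ)]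
      at h3
    have h5 := le_abs_self (Real.log n)
    linarith
  obtain ⟨n₂, hn₂⟩ := Filter.eventually_atTop.1 hlarge
  refine ⟨n₁ + n₂ + 1, fun n hn => ?_⟩
  obtain ⟨hb1, hb2, hb3⟩ := hn₂ n (by omega)
  obtain ⟨r, hr1, H, hH1, hH2⟩ := hn₁ n (by omega)
  have hn1 : 1 ≤ n := by omega
  have hn1' : (1 : ℝ) ≤ n := by exact_mod_cast hn1
  have hn0 : (0 : ℝ) < n := by linarith
  obtain ⟨t, ht⟩ : ∃ t : ℝ, t = (n : ℝ) ^ δ := ⟨_, rfl⟩
  rw [← ht] at hb1 hb2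
  have hrt : (r : ℝ) + 1 ≤ t := by linarith
  have hr0 : (0 : ℝ) ≤ r := Nat.cast_nonneg r
  -- powers of `n`
  have hquarter : t ^ 2 ≤ (n : ℝ) ^ ((1 : ℝ) / 4) := by
    rw [ht, ← Real.rpow_natCast, ← Real.rpow_mul hn0.le]
    apply Real.rpow_le_rpow_of_exponent_le hn1'
    push_cast
    linarith
  obtain ⟨u, hu⟩ : ∃ u : ℝ, u = (n : ℝ) ^ ((1 : ℝ) / 4) := ⟨_, rfl⟩
  have hu1 : 1 ≤ u := by rw [hu]; exact Real.one_le_rpow hn1' (by norm_num)
  have hu2 : u ^ 2 = √n := by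
    rw [hu, ← Real.rpow_natCast, ← Real.rpow_mul hn0.le, Real.sqrt_eq_rpow]
    congr 1
    norm_num
  rw [← hu] at hquarter
  have hcond : 16 * ((r : ℝ) + 1) ≤ √n := by
    rw [← hu2]
    have h1 : 16 * ((r : ℝ) + 1) ≤ t ^ 2 := by nlinarith
    nlinarith
  obtain ⟨B, P, c, v, hB, hc0, hc, hP, hv0, hv, hN⟩ := approx hn1 H hH1 hH2 hcond j
  rw [← hK] at hN
  refine ⟨B, hB, fun x hx => ?_⟩
  -- the noise
  obtain ⟨N, hNd⟩ : ∃ N, N = B - P := ⟨_, rfl⟩
  have hNx := hN x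
  rw [← hNd, dot_eq x, hx, one_pow, one_mul] at hNx
  obtain ⟨s, hs⟩ : ∃ s, s = (N *ᵥ x) ⬝ᵥ (N *ᵥ x) := ⟨_, rfl⟩
  have hs0 : 0 ≤ s := by rw [hs]; exact dot_self_nonneg' _
  rw [← hs] at hNx
  have hsv : s ≤ t * v := by
    have h1 : Cst K * n ≤ t ^ K := by
      have h2 : (n : ℝ) ^ (2 : ℝ) ≤ t ^ K := by
        rw [ht, ← Real.rpow_natCast, ← Real.rpow_mul hn0.le]
        exact Real.rpow_le_rpow_of_exponent_le hn1' hKδ
      rw [Real.rpow_two] at h2
      nlinarith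
    have h3 : s ^ K ≤ (t * v) ^ K := by
      rw [mul_pow]
      calc s ^ K ≤ Cst K * (n * v ^ K) := hNx
        _ = (Cst K * n) * v ^ K := by ring
        _ ≤ t ^ K * v ^ K := mul_le_mul_of_nonneg_right h1 (by positivity)
    exact le_of_pow_le_pow_left₀ (by omega) (by positivity) h3
  have hs1 : s ≤ (4 * t * u) ^ 2 := by
    have h1 : v ≤ 16 * t * √n := by
      refine hv.trans ?_
      apply mul_le_mul_of_nonneg_right _ (Real.sqrt_nonneg _)
      linarith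
    have h2 : t * v ≤ t * (16 * t * √n) := mul_le_mul_of_nonneg_left h1 (by linarith)
    rw [← hu2] at h2
    have h3 : t * (16 * t * u ^ 2) = (4 * t * u) ^ 2 := by ring
    linarith
  have hs2 : √s ≤ 4 * t * u := by
    rw [Real.sqrt_le_left (by positivity)]
    exact hs1
  -- norms
  have hBx : B *ᵥ x = P *ᵥ x + N *ᵥ x := by
    rw [hNd, Matrix.sub_mulVec]
    abel
  have e1 : ‖(WithLp.toLp 2 (P *ᵥ x) : EuclideanSpace ℝ (Fin n))‖ = c := by
    rw [norm_toLp, ← dot_eq, hP x, dot_eq, hx, mul_one, Real.sqrt_sq hc0]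
  have e2 : ‖(WithLp.toLp 2 (N *ᵥ x) : EuclideanSpace ℝ (Fin n))‖ ≤ 4 * t * u := by
    rw [norm_toLp, ← dot_eq, ← hs]
    exact hs2
  have e3 : |√(∑ i, (B *ᵥ x) i ^ 2) - c| ≤ 4 * t * u := by
    rw [← norm_toLp, ← e1]
    have h1 := abs_norm_sub_norm_le (WithLp.toLp 2 (B *ᵥ x) : EuclideanSpace ℝ (Fin n))
      (WithLp.toLp 2 (P *ᵥ x) : EuclideanSpace ℝ (Fin n))
    refine h1.trans ?_
    rw [← WithLp.toLp_sub, hBx, add_sub_cancel_left]
    exact e2
  have e4 : |√(∑ i, (B *ᵥ x) i ^ 2) - √n| ≤ 4 * t * u + 4 * t := by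
    have h1 : |c - √n| ≤ 4 * t := by linarith
    calc |√(∑ i, (B *ᵥ x) i ^ 2) - √n| = |(√(∑ i, (B *ᵥ x) i ^ 2) - c) + (c - √n)| := by
          ring_nf
      _ ≤ _ := abs_add_le _ _
      _ ≤ _ := by linarith
  refine e4.trans ?_
  have e5 : 4 * t * u + 4 * t ≤ t ^ 2 * u := by
    have h1 : t ≤ t * u := le_mul_of_one_le_right (by linarith) hu1
    have h2 : 16 * (t * u) ≤ t * (t * u) :=
      mul_le_mul_of_nonneg_right hb1 (mul_nonneg (by linarith) (by linarith))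
    nlinarith
  refine e5.trans ?_
  rw [ht, hu, ← Real.rpow_natCast, ← Real.rpow_mul hn0.le, ← Real.rpow_add hn0]
  apply Real.rpow_le_rpow_of_exponent_le hn1'
  push_cast
  linarith

end Pool.Agent.Results.MP_d8b1b3_co.ApproximatelyHadamard
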