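import Pool.Agent.R926.PH.Half

/-!
# Almost Hadamard matrices of every order: rows in pairs, orthogonal outside the pairs

For every `A` and all large `n` divisible by four there are two `r × n` matrices `H`, `K` with
entries `1` and `-1` and `2 r ≥ n - n / (log n) ^ A` rows together, such that the rows of `H` are
pairwise orthogonal, the rows of `K` are pairwise orthogonal, and every row of `H` is orthogonal to
every row of `K` except the one with the same index, with which its inner product is some `e`,
`|e| ≤ n / (log n) ^ A`, the same for all rows.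

In particular `H` is a partial Hadamard matrix with `r ≥ n / 2 - n / (log n) ^ A` rows.  These were
known unconditionally with `r ~ n / 3` (de Launey), and with `r ~ n / 2` under the extended Riemann
hypothesis (de Launey and Gordon).

Proof.  Two Hadamard matrices of orders near `n / 2` are put side by side (for `K` the second one is
negated).  The first is a Paley matrix of order `p + 1`, where `p` is a prime congruent to `n - 1`
modulo a slowly growing power `2 ^ t` of two (Siegel-Walfisz theorem); then `n - (p + 1)` is a
multiple of `2 ^ t`, and there is a Hadamard matrix of this order by the `log*` theorem of the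
starting files (`MP_d8b1b3_co/LogStarExistence`).
-/

namespace Pool.Agent.Results.MP_d8b1b3_co.HalfOfTheRows

theorem result (A : ℕ) : ∃ N₀ : ℕ, ∀ n : ℕ, N₀ ≤ n → 4 ∣ n →
    ∃ (r : ℕ) (e : ℤ) (H K : Matrix (Fin r) (Fin n) ℤ), (n : ℝ) - n / Real.log n ^ A ≤ 2 * r ∧
      |(e : ℝ)| ≤ n / Real.log n ^ A ∧
      (∀ i j, H i j = 1 ∨ H i j = -1) ∧ (∀ i j, K i j = 1 ∨ K i j = -1) ∧
      H * H.transpose = (n : ℤ) • (1 : Matrix (Fin r) (Fin r) ℤ) ∧
      K * K.transpose = (n : ℤ) • (1 : Matrix (Fin r) (Fin r) ℤ) ∧
      H * K.transpose = e • (1 : Matrix (Fin r) (Fin r) ℤ) :=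
  Pool.Agent.R926.PH.pairs A

end Pool.Agent.Results.MP_d8b1b3_co.HalfOfTheRows
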