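import Pool.Agent.R110.Had.MainQ3

/-!
# Hadamard matrices of order `4 (q + 3)` for all prime powers `q = -5` modulo a large power of two

There is a constant `C` such that for all natural numbers `n`, `t` and all prime powers `q` with
`q ≤ 2 ↑↑ n` (the power tower of `n` twos, `1` for `n = 0`), `t ≥ 2 ^ C ^ (n + 1)` and
`2 ^ t ∣ q + 5` there is a Hadamard matrix of order `4 (q + 3)`.

The order is `8 v` with `v = (q + 3) / 2` odd. Let `s = v - 1 = (q + 1) / 2`. The matrix is
`U ⊗ J + V ⊗ K` with a border of width eight, `J = [1 1; 1 1]`, `K = [1 -1; -1 1]`. Here `V` is made of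
eight copies of a skew conference matrix of order `v + 1` with two rows and columns deleted (it
exists by the asymptotic existence theorem for skew-Hadamard matrices of the starting files, as
`v + 1 = (q + 5) / 2` is divisible by a large power of two), and `U` of copies of the skew Paley
conference matrix of order `q + 1`, written as `[A B; -B A]` with `A x y = χ (x - y)` and
`B x y = χ (x y + 1)` on the squares `x, y` of the field, and of signed identity matrices.
-/

namespace Pool.Agent.Results.MP_d8b1b3_co.PrimePowerPlusThree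

theorem result : ∃ C : ℕ, ∀ n q t : ℕ, IsPrimePow q → q ≤ (fun x : ℕ => 2 ^ x)^[n] 1 →
    2 ^ C ^ (n + 1) ≤ t → 2 ^ t ∣ q + 5 →
    ∃ H : Matrix (Fin (4 * (q + 3))) (Fin (4 * (q + 3))) ℤ,
      (∀ i j, H i j = 1 ∨ H i j = -1) ∧
      H * H.transpose = ((4 * (q + 3) : ℕ) : ℤ) •
        (1 : Matrix (Fin (4 * (q + 3))) (Fin (4 * (q + 3))) ℤ) := by
  obtain ⟨C, h⟩ := Pool.Agent.R110.Had.main_q3
  exact ⟨C, fun n q t hq hqn ht hd => h n q t hq hqn ht hd⟩

end Pool.Agent.Results.MP_d8b1b3_co.PrimePowerPlusThree
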