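import Pool.Agent.R772.Yam.Main

/-!
# Hadamard matrices of order `4 (q + 2)` for prime powers `q ≡ -3 (mod 2 ^ t)`

There is a constant `C` such that for all natural numbers `n` and `t` and all prime powers `q` with
`q ≤ 2 ↑↑ n` (the power tower of `n` twos, `1` for `n = 0`), `t ≥ 2 ^ C ^ (n + 1)` and
`2 ^ t ∣ q + 3` there is a Hadamard matrix of order `4 (q + 2)`, an odd multiple of four.

The matrix has four border rows and columns and the inner part `U ⊗ J + V ⊗ K`. Here `U` is made of a
skew core of order `(q + 1) / 2`, which comes from a skew-Hadamard matrix of order `(q + 3) / 2`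
supplied by the asymptotic existence theorem of the starting files (`MP_d8b1b3_co/SkewAsymptotics`),
and `V` is made of two commuting symmetric matrices `A`, `B` of order `(q + 1) / 2` with
`A ^ 2 + B ^ 2 = q I`, cut out of the Paley conference matrix on the projective line by the
involution `x ↦ l / x` with `l` a nonsquare.
-/

namespace Pool.Agent.Results.MP_d8b1b3_co.PrimePowerPlusTwo

theorem result : ∃ C : ℕ, ∀ n q t : ℕ, IsPrimePow q → q ≤ (fun x : ℕ => 2 ^ x)^[n] 1 →
    2 ^ C ^ (n + 1) ≤ t → 2 ^ t ∣ q + 3 →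
    ∃ H : Matrix (Fin (4 * (q + 2))) (Fin (4 * (q + 2))) ℤ,
      (∀ i j, H i j = 1 ∨ H i j = -1) ∧
      H * H.transpose = ((4 * (q + 2) : ℕ) : ℤ) •
        (1 : Matrix (Fin (4 * (q + 2))) (Fin (4 * (q + 2))) ℤ) := by
  obtain ⟨C, _, h⟩ := Pool.Agent.R772.Yam.main_yam
  exact ⟨C, fun n q t hq hqn ht hd => h n q t hq hqn ht hd⟩

end Pool.Agent.Results.MP_d8b1b3_co.PrimePowerPlusTwo
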